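import Pool.Agent.TH942.ES.Sys
import Pool.Agent.TH942.SL.Level

/-!
# The Dirichlet series of an Euler product
-/

set_option autoImplicit false

open Filter Topology Set Complex
open Pool.Agent.TH942.LS (Dat P P_le Cont Qf)
open Pool.Agent.TH942.SL (DD dd_deriv kap)

namespace Pool.Agent.TH942.ES

variable {X : Type} {d : ℕ} {N : X → ℕ} {α : X → Fin d → ℂ} {Ψ : ℂ → ℂ} {e : X → ℕ}

/-- the frequencies -/
noncomputable def lamN (N : X → ℕ) (e : X → ℕ) : ℕ → ℝ :=
  Function.extend e (fun v => Real.log (N v)) (fun _ => Real.log 2)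

/-- the coefficients -/
noncomputable def cN (N : X → ℕ) (α : X → Fin d → ℂ) (e : X → ℕ) : ℕ → ℝ :=
  Function.extend e (cv N α) 0

lemma lamN_apply (he : Function.Injective e) (v : X) : lamN N e (e v) = Real.log (N v) :=
  he.extend_apply _ _ _

lemma cN_apply (he : Function.Injective e) (v : X) : cN N α e (e v) = cv N α v :=
  he.extend_apply _ _ _

lemma cN_zero {n : ℕ} (hn : n ∉ Set.range e) : cN N α e n = 0 := by
  unfold cN
  rw [Function.extend_apply' _ _ _ hn]
  rfl

lemma tsum_cN {E' : Type} [NormedAddCommGroup E'] (he : Function.Injective e)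
    (f : ℝ → ℝ → E') (h0 : ∀ l, f 0 l = 0) :
    ∑' n, f (cN N α e n) (lamN N e n) = ∑' v, f (cv N α v) (Real.log (N v)) := by
  rw [← he.tsum_eq (f := fun n => f (cN N α e n) (lamN N e n))]
  · simp only [lamN_apply he, cN_apply he]
  · intro n hn
    by_contra h
    exact hn (by
      change f (cN N α e n) (lamN N e n) = 0
      rw [cN_zero h, h0])

lemma summable_cN {E' : Type} [NormedAddCommGroup E'] (he : Function.Injective e)
    (f : ℝ → ℝ → E') (h0 : ∀ l, f 0 l = 0) :
    Summable (fun n => f (cN N α e n) (lamN N e n)) ↔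
      Summable fun v => f (cv N α v) (Real.log (N v)) := by
  rw [← he.summable_iff (f := fun n => f (cN N α e n) (lamN N e n))]
  · have : ((fun n => f (cN N α e n) (lamN N e n)) ∘ e) = fun v => f (cv N α v) (Real.log (N v)) := by
      funext v
      simp only [Function.comp_apply, lamN_apply he, cN_apply he]
    rw [this]
  · intro n hn
    rw [cN_zero hn, h0]

/-- the continuation of the Euler product -/
structure Con (N : X → ℕ) (α : X → Fin d → ℂ) (Ψ : ℂ → ℂ) : Prop where
  Ψd : ∀ s : ℂ, 0 < s.re → DifferentiableAt ℂ Ψ s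
  prod : ∀ s : ℂ, 1 / 2 < s.re → HasProd (fun v => ∏ i, (1 - zv N α v i * xv N v s)⁻¹) (Ψ s)

namespace Sys

variable (E : Sys N α)
include E

theorem dat (he : Function.Injective e) : Dat (lamN N e) (cN N α e) (Real.log 2) 1 where
  δ0 := Real.log_pos (by norm_num)
  σ0 := one_pos
  lam_ge := fun n => by
    by_cases h : n ∈ Set.range e
    · obtain ⟨v, rfl⟩ := h
      rw [lamN_apply he]
      exact Real.log_le_log (by norm_num) (E.Ntwo v)
    · unfold lamN
      rw [Function.extend_apply' _ _ _ h]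
  sum := by
    rw [summable_cN he (fun c l => |c| * Real.exp (-(1 * l))) (fun l => by simp)]
    refine Summable.of_nonneg_of_le (fun v => by positivity) (fun v => ?_)
      ((E.sum (3 / 2) (by norm_num)).mul_left (4 * (d : ℝ)))
    have h1 : Real.exp (-(1 * Real.log (N v))) = (N v : ℝ) ^ (-(1 : ℝ)) := by
      rw [Real.rpow_def_of_pos (E.Npos v)]
      congr 1
      ring
    rw [h1]
    calc |cv N α v| * (N v : ℝ) ^ (-(1 : ℝ)) ≤
          (4 * d * (N v : ℝ) ^ (-(1 / 2 : ℝ))) * (N v : ℝ) ^ (-(1 : ℝ)) :=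
          mul_le_mul_of_nonneg_right (E.cv_abs v) (by positivity)
      _ = _ := by
        rw [mul_assoc, ← Real.rpow_add (E.Npos v)]
        congr 2
        norm_num

omit E in
lemma DD_eq (he : Function.Injective e) (s : ℂ) :
    DD (lamN N e) (cN N α e) s = ∑' v, (cv N α v : ℂ) * xv N v s :=
  tsum_cN he (fun c l => (c : ℂ) * exp (-(s * l))) (fun l => by simp)

theorem cont (he : Function.Injective e) (H : Con N α Ψ) :
    Cont (lamN N e) (cN N α e) 1 0 Ψ (deriv (GG N α)) where
  θ0 := le_rfl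
  Ψd := H.Ψd
  Kd := fun s hs => by
    have ho : IsOpen {z : ℂ | 0 < z.re} := isOpen_lt continuous_const Complex.continuous_re
    have h1 : DifferentiableOn ℂ (GG N α) {z : ℂ | 0 < z.re} := fun z hz =>
      (E.GG_diff hz).differentiableWithinAt
    exact (h1.analyticAt (ho.mem_nhds hs)).deriv.differentiableAt
  ne := fun s hs => by
    rw [← E.exp_eq (s := s) (by linarith) (H.prod s (by linarith))]
    exact Complex.exp_ne_zero _
  eq := fun s hs => by
    have ho : IsOpen {z : ℂ | 1 < z.re} := isOpen_lt continuous_const Complex.continuous_re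
    set g : ℂ → ℂ := fun w => GG N α w - DD (lamN N e) (cN N α e) w with hg
    have hge : Ψ =ᶠ[𝓝 s] fun w => exp (g w) := by
      filter_upwards [ho.mem_nhds hs] with w hw
      have hw' : 1 < w.re := hw
      rw [hg]
      simp only
      rw [DD_eq he, E.exp_eq (s := w) (by linarith) (H.prod w (by linarith))]
    have d1 : DifferentiableAt ℂ (GG N α) s := E.GG_diff (by linarith)
    have d2 := dd_deriv (E.dat he) hs
    have d3 : HasDerivAt g (deriv (GG N α) s - -P (lamN N e) (cN N α e) s) s :=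
      d1.hasDerivAt.sub d2
    have h3 : deriv Ψ s / Ψ s = deriv (GG N α) s + P (lamN N e) (cN N α e) s := by
      rw [hge.deriv_eq, hge.eq_of_nhds, d3.cexp.deriv]
      field_simp
      ring
    rw [h3]
    ring

/-- bounds on sectors -/
theorem sector_bounds {κ : ℝ} (hκ : 0 < κ) (hκ1 : κ ≤ 1) :
    ∃ C : ℝ, (∀ s : ℂ, 0 < s.re → κ * ‖s‖ ≤ s.re → ‖GG N α s‖ ≤ C) ∧
      ∀ s : ℂ, 0 < s.re → κ * ‖s‖ ≤ s.re → ‖deriv (GG N α) s‖ ≤ C / ‖s‖ := by
  obtain ⟨CG, hCG⟩ := E.GG_sector (K := 3 / κ) (by positivity)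
  have hC2 : 0 ≤ 2 / κ * |CG| := by positivity
  refine ⟨|CG| + 2 / κ * |CG|, fun s hs hs2 => ?_, fun s hs hs2 => ?_⟩
  · have h1 : ‖GG N α s‖ ≤ |CG| := by
      refine (hCG s hs ?_).trans (le_abs_self _)
      rw [div_mul_eq_mul_div, le_div_iff₀ hκ, mul_comm]
      linarith
    linarith
  · have hn : 0 < ‖s‖ := hs.trans_le (Complex.re_le_norm s)
    have e2 : ‖deriv (GG N α) s‖ ≤ |CG| / (κ * ‖s‖ / 2) := by
      have hball : ∀ z : ℂ, z ∈ Metric.closedBall s (κ * ‖s‖ / 2) →
          0 < z.re ∧ ‖z‖ ≤ 3 / κ * z.re := by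
        intro z hz
        rw [Metric.mem_closedBall, Complex.dist_eq] at hz
        have h4 := (abs_le.1 ((Complex.abs_re_le_norm _).trans hz)).1
        rw [Complex.sub_re] at h4
        have h5 : ‖z‖ ≤ κ * ‖s‖ / 2 + ‖s‖ := by
          have := norm_add_le (z - s) s
          rw [sub_add_cancel] at this
          linarith
        have h6 : κ * ‖s‖ / 2 ≤ z.re := by linarith
        have h7 : 0 < κ * ‖s‖ := by positivity
        refine ⟨by linarith, ?_⟩
        have h8 : ‖z‖ ≤ 3 / 2 * ‖s‖ := by nlinarith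
        calc ‖z‖ ≤ 3 / 2 * ‖s‖ := h8
          _ = 3 / κ * (κ * ‖s‖ / 2) := by field_simp
          _ ≤ _ := by gcongr
      refine Complex.norm_deriv_le_of_forall_mem_sphere_norm_le (by positivity) ?_ fun z hz => ?_
      · refine DifferentiableOn.diffContOnCl fun z hz => ?_
        rw [closure_ball _ (by positivity)] at hz
        exact (E.GG_diff (hball z hz).1).differentiableWithinAt
      · obtain ⟨h4, h5⟩ := hball z (Metric.sphere_subset_closedBall hz)
        exact (hCG z h4 h5).trans (le_abs_self _)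
    refine e2.trans ?_
    have e4 : |CG| / (κ * ‖s‖ / 2) = 2 / κ * |CG| / ‖s‖ := by field_simp
    rw [e4]
    refine div_le_div_of_nonneg_right ?_ hn.le
    have := abs_nonneg CG
    linarith

end Sys

end Pool.Agent.TH942.ES
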