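import Pool.Agent.TH942.SL.AbelLim
import Pool.Agent.TH942.ES.Ext

/-!
# Limits of means and logarithmic asymptotics in sectors: the equivalence
-/

set_option autoImplicit false

open MeasureTheory Filter Topology Set Complex
open Pool.Agent.TH942.LS (Dat P P_le Cont Qf)
open Pool.Agent.TH942.SL

namespace Pool.Agent.TH942.ES

variable {α : ℝ} {lam c : ℕ → ℝ} {δ σ : ℝ}

/-- **the continuation to a sector with the asymptotic at the vertex** -/
theorem ext_sector_lim (D : Dat lam c δ σ) {ρ : ℝ} (hρ : 1 < ρ) {K c₀ : ℝ}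
    (hM : Tendsto (fun y : ℝ => M lam c ρ⁻¹ y - K * Real.log y) atTop (𝓝 c₀)) :
    ∃ Dh : ℂ → ℂ, (∀ s ∈ Sect ρ, DifferentiableAt ℂ Dh s) ∧
      (∀ s ∈ Sect ρ, σ < s.re → Dh s = DD lam c s) ∧
      ∀ ρ₂ : ℝ, ρ < ρ₂ → Tendsto (fun s => Dh s + ((K * ρ : ℝ) : ℂ) * log s) (𝓝[Sect ρ₂] 0)
        (𝓝 (((c₀ - K * Real.eulerMascheroniConstant : ℝ)) : ℂ)) := by
  have hρ0 : 0 < ρ := by linarith
  have h0 : 0 < ρ⁻¹ := by positivity
  have h1 : ρ⁻¹ < 1 := inv_lt_one_of_one_lt₀ hρ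
  have hsmall : ∀ ε : ℝ, 0 < ε → ∃ C y₀ : ℝ, ∀ y, y₀ ≤ y →
      |M lam c ρ⁻¹ y| ≤ C * Real.exp (ε * y) := by
    intro ε hε
    have h2 : ∀ᶠ y : ℝ in atTop, |M lam c ρ⁻¹ y - K * Real.log y - c₀| < 1 := by
      refine ((Metric.tendsto_nhds.1 hM) 1 one_pos).mono fun X hX => ?_
      rwa [Real.dist_eq] at hX
    obtain ⟨y₀, hy₀⟩ := (h2.and (eventually_ge_atTop 1)).exists_forall_of_atTop
    refine ⟨|K| / ε + (|c₀| + 1), y₀, fun y hy => ?_⟩
    obtain ⟨e1, e2⟩ := hy₀ y hy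
    have hy0 : 0 < y := by linarith
    have e3 : Real.log y ≤ y := by
      have := Real.log_le_sub_one_of_pos hy0
      linarith
    have e4 : 0 ≤ Real.log y := Real.log_nonneg e2
    have e5 : ε * y ≤ Real.exp (ε * y) := by
      have := Real.add_one_le_exp (ε * y)
      linarith
    have e6 : 1 ≤ Real.exp (ε * y) := Real.one_le_exp (by positivity)
    have e7 : |M lam c ρ⁻¹ y| ≤ |K| * y + (|c₀| + 1) := by
      have e8 : M lam c ρ⁻¹ y = (M lam c ρ⁻¹ y - K * Real.log y - c₀) + K * Real.log y + c₀ := by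
        ring
      have e9 : |K * Real.log y| ≤ |K| * y := by
        rw [abs_mul, abs_of_nonneg e4]
        exact mul_le_mul_of_nonneg_left e3 (abs_nonneg _)
      have e10 := abs_add_three (M lam c ρ⁻¹ y - K * Real.log y - c₀) (K * Real.log y) c₀
      rw [← e8] at e10
      linarith
    have e8 : |K| * y = |K| / ε * (ε * y) := by field_simp
    have e9 : |K| / ε * (ε * y) ≤ |K| / ε * Real.exp (ε * y) := by gcongr
    have e10 : (|c₀| + 1) * 1 ≤ (|c₀| + 1) * Real.exp (ε * y) := by gcongr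
    rw [add_mul]
    linarith
  obtain ⟨g, fh, x₁, hgc, hg, hd, hfd, hfe⟩ := ext D h0 h1 hsmall
  have hdiff : ∀ s ∈ Sect ρ, DifferentiableAt ℂ (fun s : ℂ => fh (s ^ (ρ : ℂ))) s := by
    intro s hs
    obtain ⟨h2, -⟩ := exists_root hρ hs.1 hs.2
    exact DifferentiableAt.comp (f := fun s : ℂ => s ^ (ρ : ℂ)) s (hfd _ h2)
      (differentiableAt_id.cpow_const (slit (sect_re hρ hs)))
  refine ⟨fun s => fh (s ^ (ρ : ℂ)), hdiff, ?_, ?_⟩
  · -- the identity theorem on the convex set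
    set R : Set ℂ := Sect ρ ∩ {s : ℂ | σ < s.re} with hR
    have hRo : IsOpen R := (sect_open hρ).inter (isOpen_lt continuous_const Complex.continuous_re)
    have hRc : Convex ℝ R := (sect_convex hρ).inter (convex_halfSpace_re_gt σ)
    have a1 : AnalyticOnNhd ℂ (fun s : ℂ => fh (s ^ (ρ : ℂ))) R :=
      DifferentiableOn.analyticOnNhd (fun s hs => (hdiff s hs.1).differentiableWithinAt) hRo
    have a2 : AnalyticOnNhd ℂ (DD lam c) R :=
      DifferentiableOn.analyticOnNhd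
        (fun s hs => (dd_deriv D hs.2).differentiableAt.differentiableWithinAt) hRo
    -- the base point
    have hT : Tendsto (fun x : ℝ => x ^ ρ) atTop atTop := tendsto_rpow_atTop hρ0
    obtain ⟨x, hx⟩ := ((hT.eventually_gt_atTop x₁).and
      ((eventually_gt_atTop σ).and (eventually_gt_atTop 0))).exists
    obtain ⟨hx1, hx2, hx3⟩ := hx
    have hxR : (x : ℂ) ∈ R := ⟨sect_real hρ hx3, by rwa [Set.mem_ofPred_eq, Complex.ofReal_re]⟩
    have hxp : (((x : ℂ)) ^ (ρ : ℂ)).re = x ^ ρ := by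
      rw [← Complex.ofReal_cpow hx3.le, Complex.ofReal_re]
    have hnear : (fun s : ℂ => fh (s ^ (ρ : ℂ))) =ᶠ[𝓝 (x : ℂ)] DD lam c := by
      have hc : ContinuousAt (fun s : ℂ => (s ^ (ρ : ℂ)).re) (x : ℂ) :=
        Complex.continuous_re.continuousAt.comp
          (ContinuousAt.cpow continuousAt_id continuousAt_const
            (slit (show 0 < ((x : ℂ)).re by rwa [Complex.ofReal_re])))
      have h5 : ∀ᶠ s : ℂ in 𝓝 (x : ℂ), x₁ < (s ^ (ρ : ℂ)).re :=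
        hc.eventually (lt_mem_nhds (show x₁ < ((x : ℂ) ^ (ρ : ℂ)).re by rw [hxp]; exact hx1))
      filter_upwards [h5, hRo.mem_nhds hxR] with s h6 h7
      rw [hfe _ h6]
      obtain ⟨-, h8⟩ := exists_root hρ h7.1.1 h7.1.2
      unfold f₀
      rw [h8]
    have a3 := a1.eqOn_of_preconnected_of_eventuallyEq a2 hRc.isPreconnected hxR hnear
    exact fun s hs hσ => a3 ⟨hs, hσ⟩
  · intro ρ₂ hρ₂
    have hpi := Real.pi_pos
    have hρ20 : 0 < ρ₂ := by linarith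
    -- the cone
    set κ : ℝ := Real.cos (Real.pi * ρ / (2 * ρ₂)) with hκ
    have hang : Real.pi * ρ / (2 * ρ₂) < Real.pi / 2 := by
      rw [div_lt_div_iff₀ (by positivity) (by norm_num)]
      nlinarith
    have hκ0 : 0 < κ := Real.cos_pos_of_mem_Ioo ⟨by
      have : 0 < Real.pi * ρ / (2 * ρ₂) := by positivity
      linarith, hang⟩
    have hcone : Tendsto (fun s : ℂ => s ^ (ρ : ℂ)) (𝓝[Sect ρ₂] 0)
        (𝓝[{v : ℂ | 0 < v.re ∧ κ * ‖v‖ ≤ v.re}] 0) := by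
      refine tendsto_nhdsWithin_of_tendsto_nhds_of_eventually_within _ ?_ ?_
      · rw [tendsto_zero_iff_norm_tendsto_zero]
        have e1 : Tendsto (fun s : ℂ => ‖s‖ ^ ρ) (𝓝 0) (𝓝 (‖(0 : ℂ)‖ ^ ρ)) :=
          ((continuous_norm.tendsto 0).rpow_const (Or.inr hρ0.le))
        rw [norm_zero, Real.zero_rpow hρ0.ne'] at e1
        refine (e1.mono_left nhdsWithin_le_nhds).congr fun s => ?_
        rw [norm_pow']
      · filter_upwards [self_mem_nhdsWithin] with s hs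
        have hs1 : s ∈ Sect ρ := sect_mono hρ hρ₂.le hs
        obtain ⟨h2, -⟩ := exists_root hρ hs1.1 hs1.2
        refine ⟨h2, ?_⟩
        rw [norm_pow', re_pow, mul_comm]
        refine mul_le_mul_of_nonneg_left ?_ (by positivity)
        rw [hκ, ← Real.cos_abs (arg s * ρ)]
        refine Real.cos_le_cos_of_nonneg_of_le_pi (abs_nonneg _) (by linarith) ?_
        rw [abs_mul, abs_of_pos hρ0]
        have h3 := hs.2
        calc |arg s| * ρ ≤ Real.pi / (2 * ρ₂) * ρ := by gcongr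
          _ = Real.pi * ρ / (2 * ρ₂) := by ring
    have main := (ext_lim hgc hd (K := K) (c₀ := (c₀ : ℂ)) (by
      have h2 := (Complex.continuous_ofReal.tendsto c₀).comp hM
      refine h2.congr' ?_
      filter_upwards [eventually_gt_atTop 0] with y hy
      have hyc : (y : ℂ) ≠ 0 := by exact_mod_cast hy.ne'
      rw [hg y hy]
      simp only [Function.comp_apply]
      push_cast
      field_simp) hκ0).comp hcone
    have e2 : (((c₀ - K * Real.eulerMascheroniConstant : ℝ)) : ℂ) =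
        (c₀ : ℂ) - K * Real.eulerMascheroniConstant := by push_cast; ring
    rw [e2]
    refine main.congr' ?_
    filter_upwards [self_mem_nhdsWithin] with s hs
    have hs1 : s ∈ Sect ρ := sect_mono hρ hρ₂.le hs
    simp only [Function.comp_apply]
    have e3 : log (s ^ (ρ : ℂ)) = ρ * log s := by
      have h5 : |arg s * ρ| < Real.pi := by
        rw [abs_mul, abs_of_pos hρ0]
        calc |arg s| * ρ < Real.pi / (2 * ρ) * ρ := mul_lt_mul_of_pos_right hs1.2 hρ0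
          _ = Real.pi / 2 := by field_simp
          _ < Real.pi := by linarith
      have h6 : (log s * (ρ : ℂ)).im = arg s * ρ := by
        rw [mul_comm, Complex.im_ofReal_mul, Complex.log_im, mul_comm]
      rw [Complex.cpow_def_of_ne_zero hs1.1, Complex.log_exp, mul_comm]
      · rw [h6]; exact (abs_lt.1 h5).1
      · rw [h6]; exact (abs_lt.1 h5).2.le
    rw [e3]
    push_cast
    ring

lemma sect_mono' {ρ ρ' : ℝ} (hρ : 1 ≤ ρ) (h : ρ ≤ ρ') : Sect ρ' ⊆ Sect ρ := by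
  rintro s ⟨h1, h2⟩
  refine ⟨h1, h2.trans_le ?_⟩
  have := Real.pi_pos
  apply div_le_div_of_nonneg_left this.le (by linarith)
  linarith

lemma exists_sect' {ρ₀ : ℝ} (h : 1 ≤ ρ₀) {s : ℂ} (hs : s ∈ Sect ρ₀) : ∃ ρ, ρ₀ < ρ ∧ s ∈ Sect ρ := by
  have hpi := Real.pi_pos
  have hρ0 : 0 < ρ₀ := by linarith
  have h2 : Tendsto (fun ρ : ℝ => Real.pi / (2 * ρ)) (𝓝[>] ρ₀) (𝓝 (Real.pi / (2 * ρ₀))) := by
    have : ContinuousAt (fun ρ : ℝ => Real.pi / (2 * ρ)) ρ₀ :=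
      continuousAt_const.div (by fun_prop) (by positivity)
    exact this.tendsto.mono_left nhdsWithin_le_nhds
  obtain ⟨ρ, h3, h4⟩ := ((h2.eventually (lt_mem_nhds hs.2)).and self_mem_nhdsWithin).exists
  exact ⟨ρ, h4, hs.1, h3⟩

/-- **Gluing** -/
theorem glue2 {ρ₀ : ℝ} (h : 1 ≤ ρ₀) {L : ℂ → ℂ} {G : ℝ → ℂ → ℂ}
    (h1 : ∀ ρ, ρ₀ < ρ → ∀ s ∈ Sect ρ, DifferentiableAt ℂ (G ρ) s)
    (h2 : ∀ ρ, ρ₀ < ρ → ∀ s ∈ Sect ρ, σ < s.re → G ρ s = L s) :
    ∃ H : ℂ → ℂ, ∀ ρ, ρ₀ < ρ → ∀ s ∈ Sect ρ, H s = G ρ s := by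
  classical
  have hcomp : ∀ ρ ρ' : ℝ, ρ₀ < ρ → ρ ≤ ρ' → ∀ s ∈ Sect ρ', G ρ s = G ρ' s := by
    intro ρ ρ' hρ hle
    have hρ1 : 1 < ρ := by linarith
    have hsub := sect_mono hρ1 hle
    exact Sys.agree (by linarith) (fun s hs => h1 ρ hρ s (hsub hs))
      (fun s hs => h1 ρ' (by linarith) s hs) (σ := σ) fun s hs h3 => by
        rw [h2 ρ hρ s (hsub hs) h3, h2 ρ' (by linarith) s hs h3]
  refine ⟨fun s => if hs : ∃ ρ, ρ₀ < ρ ∧ s ∈ Sect ρ then G hs.choose s else 0,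
    fun ρ hρ s hs => ?_⟩
  have hex : ∃ ρ, ρ₀ < ρ ∧ s ∈ Sect ρ := ⟨ρ, hρ, hs⟩
  simp only [dif_pos hex]
  obtain ⟨h3, h4⟩ := hex.choose_spec
  rcases le_total ρ hex.choose with h5 | h5
  · exact (hcomp ρ _ hρ h5 s h4).symm
  · exact hcomp _ ρ h3 h5 s hs

/-- **The equivalence for Dirichlet series.** -/
theorem sect_equiv (D : Dat lam c δ σ) {ρ₀ : ℝ} (h : 1 ≤ ρ₀) (K κ : ℝ) :
    (∀ ρ : ℝ, ρ₀ < ρ → Tendsto (fun y : ℝ => M lam c ρ⁻¹ y - K * ρ⁻¹ * Real.log y) atTop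
      (𝓝 (κ + K * ρ⁻¹ * Real.eulerMascheroniConstant))) ↔
    ∃ Dh : ℂ → ℂ, (∀ s ∈ Sect ρ₀, DifferentiableAt ℂ Dh s) ∧
      (∀ s ∈ Sect ρ₀, σ < s.re → Dh s = DD lam c s) ∧
      ∀ ρ : ℝ, ρ₀ < ρ → Tendsto (fun s => Dh s + K * log s) (𝓝[Sect ρ] 0) (𝓝 (κ : ℂ)) := by
  constructor
  · intro hM
    choose! G hG1 hG2 hG3 using fun (ρ : ℝ) (hρ : ρ₀ < ρ) =>
      ext_sector_lim D (ρ := ρ) (by linarith) (hM ρ hρ)
    obtain ⟨H, hH⟩ := glue2 h hG1 hG2
    refine ⟨H, fun s hs => ?_, fun s hs hσ => ?_, fun ρ hρ => ?_⟩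
    · obtain ⟨ρ, h1, h2⟩ := exists_sect' h hs
      refine (hG1 ρ h1 s h2).congr_of_eventuallyEq ?_
      filter_upwards [(sect_open (by linarith)).mem_nhds h2] with z hz
      exact hH ρ h1 z hz
    · obtain ⟨ρ, h1, h2⟩ := exists_sect' h hs
      rw [hH ρ h1 s h2]
      exact hG2 ρ h1 s h2 hσ
    · obtain ⟨ρ₁, h1, h2⟩ := exists_between hρ
      have hρ1 : 1 < ρ₁ := by linarith
      have hρ10 : (ρ₁ : ℝ) ≠ 0 := by linarith
      have e1 := hG3 ρ₁ h1 ρ h2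
      have e2 : K * ρ₁⁻¹ * ρ₁ = K := by field_simp
      have e3 : κ + K * ρ₁⁻¹ * Real.eulerMascheroniConstant -
        K * ρ₁⁻¹ * Real.eulerMascheroniConstant = κ := by ring
      rw [e2, e3] at e1
      refine e1.congr' ?_
      filter_upwards [self_mem_nhdsWithin] with s hs
      rw [hH ρ₁ h1 s (sect_mono hρ1 h2.le hs)]
  · rintro ⟨Dh, h1, h2, h3⟩ ρ hρ
    obtain ⟨ρ₁, h4, h5⟩ := exists_between hρ
    have hsub := sect_mono' h h4.le
    have e1 := lim_sector D (ρ₁ := ρ₁) (by linarith) h5 (fun s hs => h1 s (hsub hs))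
      (fun s hs => h2 s (hsub hs)) (h3 ρ₁ h4)
    have e2 := (Complex.continuous_re.tendsto _).comp e1
    have e3 : ((κ : ℂ) + K * ρ⁻¹ * Real.eulerMascheroniConstant).re =
        κ + K * ρ⁻¹ * Real.eulerMascheroniConstant := by
      rw [← Complex.ofReal_mul]
      norm_cast
    have e4 : (κ : ℂ) + K * ((ρ⁻¹ : ℝ) : ℂ) * Real.eulerMascheroniConstant =
        ((κ + K * ρ⁻¹ * Real.eulerMascheroniConstant : ℝ) : ℂ) := by push_cast; ring
    rw [e4, Complex.ofReal_re] at e2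
    refine e2.congr fun y => ?_
    simp only [Function.comp_apply, Complex.ofReal_re]

end Pool.Agent.TH942.ES
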