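import Pool.Agent.TH942.ES.Equiv
import Pool.Agent.TH942.SL.CurveLim

/-!
# The logarithm of an Euler product as a Dirichlet series over the prime powers
-/

set_option autoImplicit false

open Filter Topology Set Complex MeasureTheory
open Pool.Agent.TH942.LS (Dat P P_le Cont Qf)
open Pool.Agent.TH942.SL

namespace Pool.Agent.TH942.ES

variable {X : Type} {d : ℕ} {N : X → ℕ} {α : X → Fin d → ℂ} {e : X × ℕ → ℕ}

/-- the logarithm of the norm of the prime power `v^(k+1)` -/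
noncomputable def lamP (N : X → ℕ) (p : X × ℕ) : ℝ := ((p.2 : ℝ) + 1) * Real.log (N p.1)

/-- the coefficient of the prime power `v^(k+1)` -/
noncomputable def cP (N : X → ℕ) (α : X → Fin d → ℂ) (p : X × ℕ) : ℝ :=
  (∑ i, zv N α p.1 i ^ (p.2 + 1)).re / ((p.2 : ℝ) + 1)

/-- the frequencies -/
noncomputable def lamS (N : X → ℕ) (e : X × ℕ → ℕ) : ℕ → ℝ :=
  Function.extend e (lamP N) (fun _ => Real.log 2)

/-- the coefficients -/
noncomputable def cS (N : X → ℕ) (α : X → Fin d → ℂ) (e : X × ℕ → ℕ) : ℕ → ℝ :=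
  Function.extend e (cP N α) 0

lemma lamS_apply (he : Function.Injective e) (p : X × ℕ) : lamS N e (e p) = lamP N p :=
  he.extend_apply _ _ _

lemma cS_apply (he : Function.Injective e) (p : X × ℕ) : cS N α e (e p) = cP N α p :=
  he.extend_apply _ _ _

lemma cS_zero {n : ℕ} (hn : n ∉ Set.range e) : cS N α e n = 0 := by
  unfold cS
  rw [Function.extend_apply' _ _ _ hn]
  rfl

lemma tsum_cS {E' : Type} [NormedAddCommGroup E'] (he : Function.Injective e)
    (f : ℝ → ℝ → E') (h0 : ∀ l, f 0 l = 0) :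
    ∑' n, f (cS N α e n) (lamS N e n) = ∑' p, f (cP N α p) (lamP N p) := by
  rw [← he.tsum_eq (f := fun n => f (cS N α e n) (lamS N e n))]
  · simp only [lamS_apply he, cS_apply he]
  · intro n hn
    by_contra h
    exact hn (by
      change f (cS N α e n) (lamS N e n) = 0
      rw [cS_zero h, h0])

lemma summable_cS {E' : Type} [NormedAddCommGroup E'] (he : Function.Injective e)
    (f : ℝ → ℝ → E') (h0 : ∀ l, f 0 l = 0) :
    Summable (fun n => f (cS N α e n) (lamS N e n)) ↔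
      Summable fun p => f (cP N α p) (lamP N p) := by
  rw [← he.summable_iff (f := fun n => f (cS N α e n) (lamS N e n))]
  · have : ((fun n => f (cS N α e n) (lamS N e n)) ∘ e) = fun p => f (cP N α p) (lamP N p) := by
      funext v
      simp only [Function.comp_apply, lamS_apply he, cS_apply he]
    rw [this]
  · intro n hn
    rw [cS_zero hn, h0]

/-- the sum over the prime powers -/
noncomputable def StE (N : X → ℕ) (α : X → Fin d → ℂ) (ρ ρ' Y : ℝ) : ℝ :=
  ∑ᶠ (p : X × ℕ) (_ : (N p.1 : ℝ) ^ (p.2 + 1) ≤ Real.exp (Real.log Y ^ ρ')),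
    wml ρ⁻¹ (((p.2 : ℝ) + 1) * Real.log (N p.1) / Real.log Y) * cP N α p

namespace Sys

variable (E : Sys N α)
include E

lemma cP_abs (p : X × ℕ) : |cP N α p| ≤ d * (1 / √(N p.1 : ℝ)) ^ (p.2 + 1) := by
  unfold cP
  rw [abs_div, abs_of_pos (by positivity : (0 : ℝ) < (p.2 : ℝ) + 1)]
  have h1 : |(∑ i, zv N α p.1 i ^ (p.2 + 1)).re| ≤ d * (1 / √(N p.1 : ℝ)) ^ (p.2 + 1) := by
    refine (Complex.abs_re_le_norm _).trans ((norm_sum_le _ _).trans ?_)
    calc ∑ i, ‖zv N α p.1 i ^ (p.2 + 1)‖ ≤ ∑ _i : Fin d, (1 / √(N p.1 : ℝ)) ^ (p.2 + 1) := by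
          refine Finset.sum_le_sum fun i _ => ?_
          rw [norm_pow]
          exact pow_le_pow_left₀ (norm_nonneg _) (E.norm_zv p.1 i) _
      _ = _ := by
        rw [Finset.sum_const, Finset.card_univ, Fintype.card_fin, nsmul_eq_mul]
  refine (div_le_self (abs_nonneg _) ?_).trans h1
  have : (0 : ℝ) ≤ p.2 := Nat.cast_nonneg _
  linarith

lemma exp_lamP (r : ℝ) (p : X × ℕ) :
    Real.exp (-(r * lamP N p)) = ((N p.1 : ℝ) ^ (-r)) ^ (p.2 + 1) := by
  unfold lamP
  rw [Real.rpow_def_of_pos (E.Npos p.1), ← Real.exp_nat_mul]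
  congr 1
  push_cast
  ring

theorem cP_sum {σ : ℝ} (hσ : 1 / 2 < σ) :
    Summable fun p : X × ℕ => |cP N α p| * Real.exp (-(σ * lamP N p)) := by
  have h1 : Summable fun v : X => (d : ℝ) * (N v : ℝ) ^ (-(1 / 2 + σ)) :=
    (E.sum (1 / 2 + σ) (by linarith)).mul_left _
  have h2 : Summable fun k : ℕ => (1 / 2 : ℝ) ^ k := summable_geometric_two
  refine Summable.of_nonneg_of_le (fun p => by positivity) (fun p => ?_)
    (h1.mul_of_nonneg h2 (fun v => by positivity) (fun k => by positivity))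
  have hN := E.Npos p.1
  have e1 : 1 / √(N p.1 : ℝ) = (N p.1 : ℝ) ^ (-(1 / 2 : ℝ)) := by
    rw [Real.rpow_neg hN.le, ← Real.sqrt_eq_rpow, one_div]
  have e2 : (1 / √(N p.1 : ℝ)) ^ (p.2 + 1) * ((N p.1 : ℝ) ^ (-σ)) ^ (p.2 + 1) =
      ((N p.1 : ℝ) ^ (-(1 / 2 + σ))) ^ (p.2 + 1) := by
    rw [← mul_pow, e1, ← Real.rpow_add hN]
    congr 2
    ring
  have e3 : (N p.1 : ℝ) ^ (-(1 / 2 + σ)) ≤ 1 / 2 := by
    calc (N p.1 : ℝ) ^ (-(1 / 2 + σ)) ≤ (N p.1 : ℝ) ^ (-(1 : ℝ)) :=
          Real.rpow_le_rpow_of_exponent_le (by have := E.Ntwo p.1; linarith) (by linarith)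
      _ = (N p.1 : ℝ)⁻¹ := Real.rpow_neg_one _
      _ ≤ 1 / 2 := by
        rw [one_div]
        exact inv_anti₀ (by norm_num) (E.Ntwo p.1)
  have e4 : 0 ≤ (N p.1 : ℝ) ^ (-(1 / 2 + σ)) := by positivity
  calc |cP N α p| * Real.exp (-(σ * lamP N p)) ≤
        (d * (1 / √(N p.1 : ℝ)) ^ (p.2 + 1)) * ((N p.1 : ℝ) ^ (-σ)) ^ (p.2 + 1) := by
        rw [E.exp_lamP]
        exact mul_le_mul_of_nonneg_right (E.cP_abs p) (by positivity)
    _ = d * ((N p.1 : ℝ) ^ (-(1 / 2 + σ))) ^ (p.2 + 1) := by rw [mul_assoc, e2]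
    _ = d * ((N p.1 : ℝ) ^ (-(1 / 2 + σ)) * ((N p.1 : ℝ) ^ (-(1 / 2 + σ))) ^ p.2) := by
        rw [pow_succ, mul_comm (((N p.1 : ℝ) ^ (-(1 / 2 + σ))) ^ p.2)]
    _ ≤ d * ((N p.1 : ℝ) ^ (-(1 / 2 + σ)) * (1 / 2) ^ p.2) := by gcongr
    _ = _ := by ring

theorem datS (he : Function.Injective e) {σ : ℝ} (hσ : 1 / 2 < σ) :
    Dat (lamS N e) (cS N α e) (Real.log 2) σ where
  δ0 := Real.log_pos (by norm_num)
  σ0 := by linarith
  lam_ge := fun n => by
    by_cases h : n ∈ Set.range e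
    · obtain ⟨p, rfl⟩ := h
      rw [lamS_apply he]
      unfold lamP
      have h1 := Real.log_le_log (by norm_num) (E.Ntwo p.1)
      have h2 : (0 : ℝ) ≤ p.2 := Nat.cast_nonneg _
      have h3 := E.logN p.1
      nlinarith
    · unfold lamS
      rw [Function.extend_apply' _ _ _ h]
  sum := by
    rw [summable_cS he (fun c l => |c| * Real.exp (-(σ * l))) (fun l => by simp)]
    exact E.cP_sum hσ

/-- the inner sums -/
lemma inner (hreal : ∀ v k, (∑ i, zv N α v i ^ k).im = 0) {s : ℂ} (hs : 0 ≤ s.re) (v : X) :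
    HasSum (fun k : ℕ => (cP N α (v, k) : ℂ) * exp (-(s * lamP N (v, k))))
      (∑ i, -log (1 - zv N α v i * xv N v s)) := by
  have h1 : ∀ i, HasSum (fun k : ℕ => (zv N α v i * xv N v s) ^ (k + 1) / ((k + 1 : ℕ) : ℂ))
      (-log (1 - zv N α v i * xv N v s)) := by
    intro i
    have h2 := hasSum_taylorSeries_neg_log (E.zx_lt hs v i)
    have h3 := (hasSum_nat_add_iff' (f := fun n : ℕ => (zv N α v i * xv N v s) ^ n / (n : ℂ)) 1).2 h2
    simpa using h3
  refine (hasSum_sum fun i _ => h1 i).congr_fun fun k => ?_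
  have e1 : ((cP N α (v, k) : ℝ) : ℂ) = (∑ i, zv N α v i ^ (k + 1)) / ((k + 1 : ℕ) : ℂ) := by
    unfold cP
    push_cast
    congr 1
    apply Complex.ext
    · rw [Complex.ofReal_re]
    · rw [Complex.ofReal_im]
      exact (hreal v (k + 1)).symm
  have e2 : exp (-(s * (lamP N (v, k) : ℝ))) = xv N v s ^ (k + 1) := by
    unfold xv lamP
    rw [← Complex.exp_nat_mul]
    congr 1
    push_cast
    ring
  rw [e1, e2, Finset.sum_div, Finset.sum_mul]
  refine Finset.sum_congr rfl fun i _ => ?_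
  rw [mul_pow]
  ring

/-- **the series over the prime powers is the logarithm of the Euler product** -/
theorem exp_DD (hreal : ∀ v k, (∑ i, zv N α v i ^ k).im = 0) (he : Function.Injective e) {s : ℂ}
    (hs : 1 / 2 < s.re) : exp (DD (lamS N e) (cS N α e) s) = LE N α s := by
  obtain ⟨σ, h1, h2⟩ := exists_between hs
  have hsum : Summable fun p : X × ℕ => (cP N α p : ℂ) * exp (-(s * lamP N p)) := by
    refine Summable.of_norm_bounded (E.cP_sum hs) fun p => ?_
    rw [norm_mul, Complex.norm_real, Real.norm_eq_abs, Complex.norm_exp, Complex.neg_re,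
      Complex.re_mul_ofReal]
  have h3 : DD (lamS N e) (cS N α e) s = ∑' p, (cP N α p : ℂ) * exp (-(s * lamP N p)) :=
    tsum_cS he (fun c l => (c : ℂ) * exp (-(s * l))) (fun l => by simp)
  have h4 := HasSum.prod_fiberwise hsum.hasSum fun v => E.inner hreal (by linarith) v
  rw [← h3] at h4
  have h5 := h4.cexp
  have h6 : (exp ∘ fun v => ∑ i, -log (1 - zv N α v i * xv N v s)) =
      fun v => ∏ i, (1 - zv N α v i * xv N v s)⁻¹ := by
    funext v
    simp only [Function.comp_apply]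
    rw [Complex.exp_sum]
    refine Finset.prod_congr rfl fun i _ => ?_
    rw [Complex.exp_neg, Complex.exp_log]
    exact slitPlane_ne_zero (one_sub_mem (E.zx_lt (by linarith) v i))
  rw [h6] at h5
  exact h5.tprod_eq.symm

lemma finS (T : ℝ) : {p : X × ℕ | (N p.1 : ℝ) ^ (p.2 + 1) ≤ T}.Finite := by
  obtain ⟨n, hn⟩ := exists_nat_gt T
  refine ((E.fin_le T).prod (Set.finite_Iio n)).subset ?_
  rintro ⟨v, k⟩ hp
  simp only [Set.mem_ofPred_eq] at hp
  have h1 := E.Ntwo v
  refine ⟨?_, ?_⟩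
  · simp only [Set.mem_ofPred_eq]
    refine le_trans ?_ hp
    exact le_self_pow₀ (by linarith) (by omega)
  · simp only [Set.mem_Iio]
    by_contra hcon
    push Not at hcon
    have h2 : (2 : ℝ) ^ (k + 1) ≤ (N v : ℝ) ^ (k + 1) := pow_le_pow_left₀ (by norm_num) h1 _
    have h3 : (k : ℝ) < 2 ^ (k + 1) := by
      have h5 : k < 2 ^ (k + 1) := (Nat.lt_two_pow_self).trans_le
        (Nat.pow_le_pow_right (by norm_num) (by omega))
      exact_mod_cast h5
    have h4 : (n : ℝ) ≤ k := by exact_mod_cast hcon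
    linarith

/-- the finite sums and the means have the same limits -/
theorem St_close (he : Function.Injective e) {ρ ρ' : ℝ} (hρ : 1 < ρ) (hρ' : ρ < ρ') :
    Tendsto (fun Y : ℝ => StE N α ρ ρ' Y - M (lamS N e) (cS N α e) ρ⁻¹ (Real.log Y ^ ρ)) atTop
      (𝓝 0) := by
  have h0 : 0 < ρ⁻¹ := by positivity
  have h1 : ρ⁻¹ < 1 := inv_lt_one_of_one_lt₀ hρ
  have hρ0 : 0 < ρ := by linarith
  obtain ⟨B, C, hB, hC, h⟩ := M_finite' (E.datS he (σ := 1) (by norm_num)) h0 h1
  have h2 : ∀ᶠ T : ℝ in atTop, B * T ^ ρ ≤ T ^ ρ' := by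
    have e1 : Tendsto (fun T : ℝ => T ^ (ρ' - ρ)) atTop atTop :=
      tendsto_rpow_atTop (by linarith)
    filter_upwards [e1.eventually_ge_atTop B, eventually_gt_atTop 0] with T h3 h4
    have e2 : T ^ ρ' = T ^ (ρ' - ρ) * T ^ ρ := by
      rw [← Real.rpow_add h4]
      congr 1
      ring
    rw [e2]
    have : 0 < T ^ ρ := Real.rpow_pos_of_pos h4 _
    gcongr
  have hlim : Tendsto (fun X : ℝ => C * Real.exp (-(B * Real.log X ^ ρ))) atTop (𝓝 0) := by
    have e1 : Tendsto (fun X : ℝ => B * Real.log X ^ ρ) atTop atTop :=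
      ((tendsto_rpow_atTop hρ0).comp Real.tendsto_log_atTop).const_mul_atTop hB
    have e2 := (Real.tendsto_exp_neg_atTop_nhds_zero.comp e1).const_mul C
    rwa [mul_zero] at e2
  refine squeeze_zero_norm' ?_ hlim
  filter_upwards [Real.tendsto_log_atTop.eventually h2, eventually_gt_atTop 1] with Y h3 h4
  have hT : 0 < Real.log Y := Real.log_pos h4
  have hy : 0 < Real.log Y ^ ρ := Real.rpow_pos_of_pos hT _
  have hfin := E.finS (Real.exp (Real.log Y ^ ρ'))
  classical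
  have e1 := h (Real.log Y ^ ρ) (hfin.toFinset.image e) hy ?_
  · rw [abs_sub_comm] at e1
    have e2 : StE N α ρ ρ' Y = ∑ n ∈ hfin.toFinset.image e,
        cS N α e n * wml ρ⁻¹ (lamS N e n * (Real.log Y ^ ρ) ^ (-ρ⁻¹)) := by
      have e3 : (Real.log Y ^ ρ) ^ (-ρ⁻¹) = (Real.log Y)⁻¹ := by
        rw [← Real.rpow_mul hT.le]
        have : ρ * -ρ⁻¹ = -1 := by field_simp
        rw [this, Real.rpow_neg_one]
      have e4 : StE N α ρ ρ' Y = ∑ p ∈ hfin.toFinset,
          wml ρ⁻¹ (((p.2 : ℝ) + 1) * Real.log (N p.1) / Real.log Y) * cP N α p :=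
        finsum_mem_eq_finite_toFinset_sum
          (fun p : X × ℕ => wml ρ⁻¹ (((p.2 : ℝ) + 1) * Real.log (N p.1) / Real.log Y) * cP N α p)
          hfin
      rw [Finset.sum_image he.injOn, e4]
      refine Finset.sum_congr rfl fun p _ => ?_
      rw [e3, lamS_apply he, cS_apply he, ← div_eq_mul_inv, mul_comm]
      rfl
    rw [e2, Real.norm_eq_abs]
    exact e1
  · intro n hn
    by_cases hr : n ∈ Set.range e
    · obtain ⟨p, rfl⟩ := hr
      right
      have h5 : p ∉ hfin.toFinset := fun h => hn (Finset.mem_image_of_mem e h)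
      rw [Set.Finite.mem_toFinset, Set.mem_ofPred_eq, not_le] at h5
      rw [lamS_apply he]
      refine h3.trans ?_
      have h6 := (Real.lt_log_iff_exp_lt (by have := E.Npos p.1; positivity)).2 h5
      rw [Real.log_pow] at h6
      unfold lamP
      push_cast at h6
      exact h6.le
    · left
      exact cS_zero hr

end Sys

end Pool.Agent.TH942.ES
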