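import Pool.Agent.TH942.ES.Term

/-!
# Euler products of a system of primes
-/

set_option autoImplicit false

open Filter Topology Set Complex

namespace Pool.Agent.TH942.ES

variable {X : Type} {d : ℕ} {N : X → ℕ} {α : X → Fin d → ℂ}

/-- a system of primes `v` with norms `N v` and local roots `α v i` -/
structure Sys (N : X → ℕ) (α : X → Fin d → ℂ) : Prop where
  cnt : Countable X
  two_le : ∀ v, 2 ≤ N v
  sum : ∀ r : ℝ, 1 < r → Summable fun v => (N v : ℝ) ^ (-r)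
  log_sum : ∃ C σ₀ : ℝ, 0 < σ₀ ∧ ∀ σ : ℝ, 0 < σ → σ < σ₀ →
    Summable (fun v => Real.log (N v) * (N v : ℝ) ^ (-(1 + σ))) ∧
    σ * ∑' v, Real.log (N v) * (N v : ℝ) ^ (-(1 + σ)) ≤ C
  le : ∀ v i, ‖α v i‖ ≤ 1
  real : ∀ v, (∑ i, log (1 - α v i / ((√(N v : ℝ) : ℝ) : ℂ))).im = 0

/-- the local roots at the centre -/
noncomputable def zv (N : X → ℕ) (α : X → Fin d → ℂ) (v : X) (i : Fin d) : ℂ :=
  α v i / ((√(N v : ℝ) : ℝ) : ℂ)

/-- the logarithm of the local factor at the centre -/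
noncomputable def cv (N : X → ℕ) (α : X → Fin d → ℂ) (v : X) : ℝ :=
  (∑ i, log (1 - zv N α v i)).re

/-- `(N v)^(-s)` -/
noncomputable def xv (N : X → ℕ) (v : X) (s : ℂ) : ℂ := exp (-(s * Real.log (N v)))

/-- the local term of the correction function -/
noncomputable def gv (N : X → ℕ) (α : X → Fin d → ℂ) (v : X) (s : ℂ) : ℂ :=
  ∑ i, tz (zv N α v i) (xv N v s)

/-- the correction function -/
noncomputable def GG (N : X → ℕ) (α : X → Fin d → ℂ) (s : ℂ) : ℂ := ∑' v, gv N α v s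

namespace Sys

variable (E : Sys N α)
include E

lemma Npos (v : X) : (0 : ℝ) < N v := by
  have := E.two_le v
  exact_mod_cast (by omega : 0 < N v)

lemma Ntwo (v : X) : (2 : ℝ) ≤ N v := by exact_mod_cast E.two_le v

lemma logN (v : X) : 0 < Real.log (N v) := Real.log_pos (by have := E.Ntwo v; linarith)

lemma norm_zv (v : X) (i : Fin d) : ‖zv N α v i‖ ≤ 1 / √(N v : ℝ) := by
  unfold zv
  have hq : 0 < √(N v : ℝ) := Real.sqrt_pos.2 (E.Npos v)
  rw [norm_div, Complex.norm_real, Real.norm_eq_abs, abs_of_pos hq]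
  exact div_le_div_of_nonneg_right (E.le v i) hq.le

lemma norm_zv_le (v : X) (i : Fin d) : ‖zv N α v i‖ ≤ 3 / 4 := by
  refine (E.norm_zv v i).trans ?_
  have hq : 0 < √(N v : ℝ) := Real.sqrt_pos.2 (E.Npos v)
  rw [div_le_iff₀ hq]
  have : 4 / 3 ≤ √(N v : ℝ) := by
    apply Real.le_sqrt_of_sq_le
    have := E.Ntwo v
    norm_num
    linarith
  linarith

lemma norm_zv_sq (v : X) (i : Fin d) : ‖zv N α v i‖ ^ 2 ≤ 1 / N v := by
  have h1 := E.norm_zv v i
  calc ‖zv N α v i‖ ^ 2 ≤ (1 / √(N v : ℝ)) ^ 2 := pow_le_pow_left₀ (norm_nonneg _) h1 2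
    _ = 1 / N v := by rw [div_pow, one_pow, Real.sq_sqrt (E.Npos v).le]

lemma norm_xv (v : X) (s : ℂ) : ‖xv N v s‖ = (N v : ℝ) ^ (-s.re) := by
  unfold xv
  rw [Complex.norm_exp, Real.rpow_def_of_pos (E.Npos v)]
  congr 1
  rw [Complex.neg_re, Complex.re_mul_ofReal]
  ring

lemma norm_xv_le {s : ℂ} (hs : 0 ≤ s.re) (v : X) : ‖xv N v s‖ ≤ 1 := by
  rw [E.norm_xv]
  exact Real.rpow_le_one_of_one_le_of_nonpos (by have := E.Ntwo v; linarith) (by linarith)

lemma norm_gv {s : ℂ} (hs : 0 ≤ s.re) (v : X) :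
    ‖gv N α v s‖ ≤ 4 * d * (1 / N v) * (‖xv N v s‖ * ‖1 - xv N v s‖) := by
  unfold gv
  refine (norm_sum_le _ _).trans ?_
  have h0 : 0 ≤ ‖xv N v s‖ * ‖1 - xv N v s‖ := by positivity
  calc ∑ i, ‖tz (zv N α v i) (xv N v s)‖ ≤
        ∑ _i : Fin d, 4 * (1 / N v) * (‖xv N v s‖ * ‖1 - xv N v s‖) := by
        refine Finset.sum_le_sum fun i _ => ?_
        refine (norm_tz_le (E.norm_zv_le v i) (E.norm_xv_le hs v)).trans ?_
        have := E.norm_zv_sq v i
        gcongr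
    _ = _ := by
      rw [Finset.sum_const, Finset.card_univ, Fintype.card_fin, nsmul_eq_mul]
      ring

lemma rpow_split (v : X) (r : ℝ) : (1 / (N v : ℝ)) * (N v : ℝ) ^ (-r) = (N v : ℝ) ^ (-(1 + r)) := by
  rw [show (-(1 + r) : ℝ) = -1 + -r by ring, Real.rpow_add (E.Npos v), Real.rpow_neg_one, one_div]

lemma norm_gv₁ {δ : ℝ} (hδ : 0 ≤ δ) {s : ℂ} (hs : δ ≤ s.re) (v : X) :
    ‖gv N α v s‖ ≤ 8 * d * (N v : ℝ) ^ (-(1 + δ)) := by
  refine (E.norm_gv (hδ.trans hs) v).trans ?_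
  have h1 := E.norm_xv_le (hδ.trans hs) v
  have h2 : ‖1 - xv N v s‖ ≤ 2 := by
    refine (norm_sub_le _ _).trans ?_
    rw [norm_one]
    linarith
  have h3 : ‖xv N v s‖ ≤ (N v : ℝ) ^ (-δ) := by
    rw [E.norm_xv]
    exact Real.rpow_le_rpow_of_exponent_le (by have := E.Ntwo v; linarith) (by linarith)
  have hN := E.Npos v
  calc 4 * d * (1 / N v) * (‖xv N v s‖ * ‖1 - xv N v s‖) ≤
        4 * d * (1 / N v) * ((N v : ℝ) ^ (-δ) * 2) := by gcongr
    _ = 8 * d * ((1 / N v) * (N v : ℝ) ^ (-δ)) := by ring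
    _ = _ := by rw [E.rpow_split]

lemma norm_gv₂ {s : ℂ} (hs : 0 ≤ s.re) (v : X) :
    ‖gv N α v s‖ ≤ 4 * d * ‖s‖ * (Real.log (N v) * (N v : ℝ) ^ (-(1 + s.re))) := by
  refine (E.norm_gv hs v).trans ?_
  have hl := E.logN v
  have h2 : ‖1 - xv N v s‖ ≤ ‖s‖ * Real.log (N v) := by
    rw [norm_sub_rev]
    unfold xv
    refine (norm_exp_sub_one_le ?_).trans (le_of_eq ?_)
    · rw [Complex.neg_re, Complex.re_mul_ofReal]
      have := mul_nonneg hs hl.le
      linarith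
    · rw [norm_neg, norm_mul, Complex.norm_real, Real.norm_eq_abs, abs_of_pos hl]
  have hN := E.Npos v
  calc 4 * d * (1 / N v) * (‖xv N v s‖ * ‖1 - xv N v s‖) ≤
        4 * d * (1 / N v) * ((N v : ℝ) ^ (-s.re) * (‖s‖ * Real.log (N v))) := by
        rw [← E.norm_xv]
        gcongr
    _ = 4 * d * ‖s‖ * (Real.log (N v) * ((1 / N v) * (N v : ℝ) ^ (-s.re))) := by ring
    _ = _ := by rw [E.rpow_split]

lemma zx_lt {s : ℂ} (hs : 0 ≤ s.re) (v : X) (i : Fin d) : ‖zv N α v i * xv N v s‖ < 1 := by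
  rw [norm_mul]
  have h1 := E.norm_zv_le v i
  have h2 := E.norm_xv_le hs v
  calc _ ≤ 3 / 4 * (1 : ℝ) := mul_le_mul h1 h2 (norm_nonneg _) (by norm_num)
    _ < 1 := by norm_num

omit E in
lemma xv_diff (v : X) : Differentiable ℂ (xv N v) := by
  unfold xv
  fun_prop

lemma gv_diff {s : ℂ} (hs : 0 < s.re) (v : X) : DifferentiableAt ℂ (gv N α v) s := by
  unfold gv tz
  refine DifferentiableAt.fun_sum fun i _ => ?_
  have h1 : DifferentiableAt ℂ (xv N v) s := xv_diff v s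
  refine (h1.mul_const _).sub ?_
  refine DifferentiableAt.clog ?_ (one_sub_mem (E.zx_lt hs.le v i))
  exact (h1.const_mul _).const_sub _

lemma gv_summable {s : ℂ} (hs : 0 < s.re) : Summable fun v => gv N α v s :=
  Summable.of_norm_bounded ((E.sum (1 + s.re) (by linarith)).mul_left (8 * (d : ℝ))) fun v =>
    E.norm_gv₁ hs.le le_rfl v

theorem GG_diff {s : ℂ} (hs : 0 < s.re) : DifferentiableAt ℂ (GG N α) s := by
  have ho : IsOpen {z : ℂ | s.re / 2 < z.re} := isOpen_lt continuous_const Complex.continuous_re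
  have h := Complex.differentiableOn_tsum_of_summable_norm (U := {z : ℂ | s.re / 2 < z.re})
    (F := fun v z => gv N α v z)
    ((E.sum (1 + s.re / 2) (by linarith)).mul_left (8 * (d : ℝ)))
    (fun v z hz => (E.gv_diff (by have : s.re / 2 < z.re := hz; linarith) v).differentiableWithinAt) ho
    (fun v z hz => E.norm_gv₁ (by linarith) (le_of_lt hz) v)
  exact h.differentiableAt (ho.mem_nhds (show s.re / 2 < s.re by linarith))

/-- the correction function is bounded in sectors -/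
theorem GG_sector {K : ℝ} (hK : 0 < K) :
    ∃ C : ℝ, ∀ s : ℂ, 0 < s.re → ‖s‖ ≤ K * s.re → ‖GG N α s‖ ≤ C := by
  obtain ⟨C, σ₀, hσ₀, hC⟩ := E.log_sum
  set B : ℝ := 8 * d * ∑' v, (N v : ℝ) ^ (-(1 + σ₀ / 2)) with hB
  have hB0 : 0 ≤ B := by
    have : 0 ≤ ∑' v, (N v : ℝ) ^ (-(1 + σ₀ / 2)) := tsum_nonneg fun v => by positivity
    positivity
  refine ⟨4 * d * K * |C| + B, fun s hs hsK => ?_⟩
  have hA0 : 0 ≤ 4 * d * K * |C| := by positivity
  by_cases hc : s.re < σ₀ / 2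
  · obtain ⟨h1, h2⟩ := hC s.re hs (by linarith)
    have h3 : ‖GG N α s‖ ≤ 4 * d * ‖s‖ * ∑' v, Real.log (N v) * (N v : ℝ) ^ (-(1 + s.re)) :=
      tsum_of_norm_bounded (h1.hasSum.mul_left _) fun v => E.norm_gv₂ hs.le v
    have h4 : 0 ≤ ∑' v, Real.log (N v) * (N v : ℝ) ^ (-(1 + s.re)) := tsum_nonneg fun v => by
      have := E.logN v
      positivity
    have h5 : 4 * d * ‖s‖ * (∑' v, Real.log (N v) * (N v : ℝ) ^ (-(1 + s.re))) ≤
        4 * d * K * |C| := by
      calc _ ≤ 4 * d * (K * s.re) * (∑' v, Real.log (N v) * (N v : ℝ) ^ (-(1 + s.re))) := by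
            gcongr
        _ = 4 * d * K * (s.re * ∑' v, Real.log (N v) * (N v : ℝ) ^ (-(1 + s.re))) := by ring
        _ ≤ 4 * d * K * |C| := by
            have := h2.trans (le_abs_self C)
            gcongr
    linarith
  · push Not at hc
    have h3 : ‖GG N α s‖ ≤ B :=
      tsum_of_norm_bounded ((E.sum (1 + σ₀ / 2) (by linarith)).hasSum.mul_left _) fun v =>
        E.norm_gv₁ (by linarith) hc v
    linarith

lemma cv_eq (v : X) : ((cv N α v : ℝ) : ℂ) = ∑ i, log (1 - zv N α v i) := by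
  apply Complex.ext
  · rw [Complex.ofReal_re]
    rfl
  · rw [Complex.ofReal_im]
    exact (E.real v).symm

lemma cv_abs (v : X) : |cv N α v| ≤ 4 * d * (N v : ℝ) ^ (-(1 / 2 : ℝ)) := by
  have h1 : |cv N α v| = ‖∑ i, log (1 - zv N α v i)‖ := by
    rw [← E.cv_eq, Complex.norm_real, Real.norm_eq_abs]
  rw [h1]
  refine (norm_sum_le _ _).trans ?_
  have h2 : 1 / √(N v : ℝ) = (N v : ℝ) ^ (-(1 / 2 : ℝ)) := by
    rw [Real.rpow_neg (E.Npos v).le, ← Real.sqrt_eq_rpow, one_div]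
  calc ∑ i, ‖log (1 - zv N α v i)‖ ≤ ∑ _i : Fin d, 4 * (N v : ℝ) ^ (-(1 / 2 : ℝ)) := by
        refine Finset.sum_le_sum fun i _ => ?_
        refine (norm_log_le (E.norm_zv_le v i)).trans ?_
        rw [← h2]
        exact mul_le_mul_of_nonneg_left (E.norm_zv v i) (by norm_num)
    _ = _ := by
      rw [Finset.sum_const, Finset.card_univ, Fintype.card_fin, nsmul_eq_mul]
      ring

lemma cx_summable {s : ℂ} (hs : 1 / 2 < s.re) :
    Summable fun v => (cv N α v : ℂ) * xv N v s := by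
  refine Summable.of_norm_bounded ((E.sum (1 / 2 + s.re) (by linarith)).mul_left (4 * (d : ℝ))) fun v => ?_
  rw [norm_mul, Complex.norm_real, Real.norm_eq_abs, E.norm_xv]
  calc |cv N α v| * (N v : ℝ) ^ (-s.re) ≤
        (4 * d * (N v : ℝ) ^ (-(1 / 2 : ℝ))) * (N v : ℝ) ^ (-s.re) :=
        mul_le_mul_of_nonneg_right (E.cv_abs v) (by positivity)
    _ = _ := by
      rw [mul_assoc, ← Real.rpow_add (E.Npos v)]
      congr 2
      ring

/-- **the Euler product is the exponential of the correction function minus the series** -/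
theorem exp_eq {s : ℂ} (hs : 1 / 2 < s.re) {y : ℂ}
    (hprod : HasProd (fun v => ∏ i, (1 - zv N α v i * xv N v s)⁻¹) y) :
    exp (GG N α s - ∑' v, (cv N α v : ℂ) * xv N v s) = y := by
  have hs0 : 0 < s.re := by linarith
  have h1 := (E.gv_summable hs0).hasSum.sub (E.cx_summable hs).hasSum
  have h2 := h1.cexp
  have h3 : (exp ∘ fun v => gv N α v s - (cv N α v : ℂ) * xv N v s) =
      fun v => ∏ i, (1 - zv N α v i * xv N v s)⁻¹ := by
    funext v
    simp only [Function.comp_apply]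
    have e1 : gv N α v s - (cv N α v : ℂ) * xv N v s =
        ∑ i, -log (1 - zv N α v i * xv N v s) := by
      rw [E.cv_eq]
      unfold gv tz
      rw [Finset.sum_sub_distrib, ← Finset.mul_sum, Finset.sum_neg_distrib]
      ring
    rw [e1, Complex.exp_sum]
    refine Finset.prod_congr rfl fun i _ => ?_
    rw [Complex.exp_neg, Complex.exp_log]
    exact slitPlane_ne_zero (one_sub_mem (E.zx_lt hs0.le v i))
  rw [h3] at h2
  exact h2.unique hprod

end Sys

end Pool.Agent.TH942.ES
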