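import Mathlib

/-!
# The local terms of an Euler product
-/

set_option autoImplicit false

open Filter Topology Set Complex

namespace Pool.Agent.TH942.ES

/-- the term `x log (1 - z) - log (1 - z x)` -/
noncomputable def tz (z x : ℂ) : ℂ := x * log (1 - z) - log (1 - z * x)

lemma norm_log_le {z : ℂ} (hz : ‖z‖ ≤ 3 / 4) : ‖log (1 - z)‖ ≤ 4 * ‖z‖ := by
  have hz1 : ‖z‖ < 1 := by linarith
  have h1 := hasSum_taylorSeries_neg_log hz1
  have hn := norm_nonneg z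
  have h2 : HasSum (fun n : ℕ => ‖z‖ * ‖z‖ ^ n) (‖z‖ * (1 - ‖z‖)⁻¹) :=
    (hasSum_geometric_of_lt_one hn hz1).mul_left _
  have h3 : HasSum (fun n : ℕ => z ^ (n + 1) / ((n + 1 : ℕ) : ℂ)) (-log (1 - z)) := by
    have := (hasSum_nat_add_iff' (f := fun n : ℕ => z ^ n / (n : ℂ)) 1).2 h1
    simpa using this
  have h4 : ‖-log (1 - z)‖ ≤ ‖z‖ * (1 - ‖z‖)⁻¹ := by
    rw [← h3.tsum_eq]
    refine tsum_of_norm_bounded h2 fun n => ?_
    rw [norm_div, norm_pow, pow_succ, mul_comm (‖z‖ ^ n), Complex.norm_natCast]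
    refine div_le_self (by positivity) ?_
    push_cast
    have : (0 : ℝ) ≤ n := Nat.cast_nonneg n
    linarith
  rw [norm_neg] at h4
  refine h4.trans ?_
  rw [mul_comm 4]
  refine mul_le_mul_of_nonneg_left ?_ hn
  rw [inv_le_comm₀ (by linarith) (by norm_num)]
  linarith

lemma pow_sub_le {x : ℂ} (hx : ‖x‖ ≤ 1) (n : ℕ) : ‖x ^ (n + 1) - x‖ ≤ n * (‖x‖ * ‖1 - x‖) := by
  induction n with
  | zero => simp
  | succ n ih =>
    have e1 : x ^ (n + 1 + 1) - x = x * (x ^ (n + 1) - x) - x * (1 - x) := by ring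
    rw [e1]
    refine (norm_sub_le _ _).trans ?_
    rw [norm_mul, norm_mul]
    have e2 : ‖x‖ * ‖x ^ (n + 1) - x‖ ≤ 1 * (n * (‖x‖ * ‖1 - x‖)) :=
      mul_le_mul hx ih (norm_nonneg _) zero_le_one
    push_cast
    linarith

/-- **the bound of the term** -/
lemma norm_tz_le {z x : ℂ} (hz : ‖z‖ ≤ 3 / 4) (hx : ‖x‖ ≤ 1) :
    ‖tz z x‖ ≤ 4 * ‖z‖ ^ 2 * (‖x‖ * ‖1 - x‖) := by
  have hz1 : ‖z‖ < 1 := by linarith
  have hn := norm_nonneg z
  have hzx : ‖z * x‖ < 1 := by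
    rw [norm_mul]
    have := mul_le_mul_of_nonneg_left hx hn
    linarith
  have h1 := (hasSum_taylorSeries_neg_log hz1).mul_left x
  have h2 := hasSum_taylorSeries_neg_log hzx
  have h3 := h2.sub h1
  have e1 : -log (1 - z * x) - x * -log (1 - z) = tz z x := by unfold tz; ring
  rw [e1] at h3
  have h4 := (hasSum_nat_add_iff' (f := fun n : ℕ => (z * x) ^ n / (n : ℂ) - x * (z ^ n / n)) 2).2 h3
  have e2 : (∑ i ∈ Finset.range 2, ((z * x) ^ i / (i : ℂ) - x * (z ^ i / i))) = 0 := by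
    simp [Finset.sum_range_succ]
    ring
  rw [e2, sub_zero] at h4
  have h5 : HasSum (fun n : ℕ => (‖z‖ ^ 2 * (‖x‖ * ‖1 - x‖)) * ‖z‖ ^ n)
      ((‖z‖ ^ 2 * (‖x‖ * ‖1 - x‖)) * (1 - ‖z‖)⁻¹) :=
    (hasSum_geometric_of_lt_one hn hz1).mul_left _
  have h6 : ‖tz z x‖ ≤ (‖z‖ ^ 2 * (‖x‖ * ‖1 - x‖)) * (1 - ‖z‖)⁻¹ := by
    rw [← h4.tsum_eq]
    refine tsum_of_norm_bounded h5 fun n => ?_
    have e3 : (z * x) ^ (n + 2) / ((n + 2 : ℕ) : ℂ) - x * (z ^ (n + 2) / ((n + 2 : ℕ) : ℂ)) =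
        z ^ (n + 2) * (x ^ (n + 2) - x) / ((n + 2 : ℕ) : ℂ) := by ring
    rw [e3, norm_div, norm_mul, norm_pow, Complex.norm_natCast, div_le_iff₀ (by positivity)]
    have e4 := pow_sub_le hx (n + 1)
    have e5 : ((n + 1 : ℕ) : ℝ) ≤ ((n + 2 : ℕ) : ℝ) := by push_cast; linarith
    have e6 : 0 ≤ ‖x‖ * ‖1 - x‖ := by positivity
    calc ‖z‖ ^ (n + 2) * ‖x ^ (n + 2) - x‖ ≤
          ‖z‖ ^ (n + 2) * (((n + 2 : ℕ) : ℝ) * (‖x‖ * ‖1 - x‖)) := by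
          refine mul_le_mul_of_nonneg_left (e4.trans ?_) (by positivity)
          exact mul_le_mul_of_nonneg_right e5 e6
      _ = _ := by ring
  refine h6.trans ?_
  have h7 : (1 - ‖z‖)⁻¹ ≤ 4 := by
    rw [inv_le_comm₀ (by linarith) (by norm_num)]
    linarith
  have h8 : 0 ≤ ‖z‖ ^ 2 * (‖x‖ * ‖1 - x‖) := by positivity
  calc _ ≤ (‖z‖ ^ 2 * (‖x‖ * ‖1 - x‖)) * 4 := mul_le_mul_of_nonneg_left h7 h8
    _ = _ := by ring

lemma one_sub_mem {z : ℂ} (hz : ‖z‖ < 1) : 1 - z ∈ slitPlane := by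
  left
  rw [Complex.sub_re, Complex.one_re]
  have := Complex.re_le_norm z
  linarith

lemma norm_exp_sub_one_le {z : ℂ} (hz : z.re ≤ 0) : ‖exp z - 1‖ ≤ ‖z‖ := by
  have h1 : Convex ℝ {w : ℂ | w.re ≤ 0} := convex_halfSpace_re_le 0
  have h2 := h1.norm_image_sub_le_of_norm_hasDerivWithin_le (f := exp) (f' := exp)
    (C := 1) (x := 0) (y := z) (fun w _ => (Complex.hasDerivAt_exp w).hasDerivWithinAt)
    (fun w hw => by
      rw [Complex.norm_exp]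
      exact Real.exp_le_one_iff.2 hw) (by simp) hz
  simpa using h2

end Pool.Agent.TH942.ES
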